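import Pool.Agent.H78.STN.Stmts3

set_option autoImplicit false

open Finset Pool.Agent.H40.COL

namespace Pool.STN

theorem chb_F3 (x : ℕ) (h : x % 3 = 0) : 3 * F x = 2 * x := by
  unfold F
  rw [if_pos h]
  omega

theorem chb_up (x : ℕ) (hx : 2 ≤ x) (h : x % 3 ≠ 0) : x < F x := by
  unfold F
  rw [if_neg h]
  split_ifs <;> omega

theorem chb_dn (x : ℕ) (hx : 2 ≤ x) (h : x % 3 = 0) : F x < x := by
  have := chb_F3 x h
  omega

theorem chb_iff (x : ℕ) (hx : 2 ≤ x) (h1 : 2 ≤ F x) :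
    (F x < x ∧ F x < F (F x)) ↔ (x % 3 = 0 ∧ F x % 3 ≠ 0) := by
  constructor
  · rintro ⟨a, b⟩
    constructor
    · by_contra h
      have := chb_up x hx h
      omega
    · intro h
      have := chb_dn (F x) h1 h
      omega
  · rintro ⟨a, b⟩
    exact ⟨chb_dn x hx a, chb_up (F x) h1 b⟩

theorem chb_log (b w X : ℕ) (hw : 2 ≤ w) (h : 2 ^ b * X = 3 ^ b * w) :
    (b : ℝ) * Real.log 2 ≤ Real.log w ∧ Real.log X ≤ 8 / 5 * Real.log w := by
  have hdvd : 2 ^ b ∣ w := by
    have h1 : 2 ^ b ∣ 3 ^ b * w := ⟨X, h.symm⟩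
    have hc : Nat.Coprime (2 ^ b) (3 ^ b) := Nat.Coprime.pow b b (by norm_num)
    exact hc.dvd_of_dvd_mul_left h1
  have hle : 2 ^ b ≤ w := Nat.le_of_dvd (by omega) hdvd
  have hb : (b : ℝ) * Real.log 2 ≤ Real.log w := by
    rw [← Real.log_pow]
    apply Real.log_le_log (by positivity)
    exact_mod_cast hle
  refine ⟨hb, ?_⟩
  have hX : X ≠ 0 := by
    rintro rfl
    have : 3 ^ b * w = 0 := by rw [← h]; simp
    have h3 : 0 < 3 ^ b * w := by positivity
    omega
  have hXr : (X : ℝ) ≠ 0 := by exact_mod_cast hX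
  have hwr : (w : ℝ) ≠ 0 := by
    have : w ≠ 0 := by omega
    exact_mod_cast this
  have hr : ((2 : ℝ) ^ b) * X = 3 ^ b * w := by exact_mod_cast h
  have hlog := congrArg Real.log hr
  rw [Real.log_mul (by positivity) hXr, Real.log_mul (by positivity) hwr, Real.log_pow,
    Real.log_pow] at hlog
  have h5 : 5 * Real.log 3 ≤ 8 * Real.log 2 := by
    have e1 : (5 : ℝ) * Real.log 3 = Real.log (3 ^ 5) := by rw [Real.log_pow]; norm_num
    have e2 : (8 : ℝ) * Real.log 2 = Real.log (2 ^ 8) := by rw [Real.log_pow]; norm_num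
    rw [e1, e2]
    exact Real.log_le_log (by norm_num) (by norm_num)
  have hb0 : (0 : ℝ) ≤ b := Nat.cast_nonneg b
  nlinarith [mul_le_mul_of_nonneg_left h5 hb0]

theorem chb_main (x : ℕ → ℕ) (m0 k : ℕ) (hm0 : 2 ≤ m0) (hx2 : ∀ j, 2 ≤ x j) (hxk : x k = m0)
    (hk : x k % 3 ≠ 0) (h3 : ∀ j, x j % 3 = 0 → 3 * x (j + 1) = 2 * x j)
    (hup : ∀ j, x j % 3 ≠ 0 → x j < x (j + 1)) (t : ℕ) : ∀ j, j + t = k →
    ∃ b w L' D' : ℕ, 2 ≤ w ∧ 2 ^ b * x j = 3 ^ b * w ∧
      (∑ i ∈ Ico j k, if x i % 3 = 0 then 1 else 0) = D' + b ∧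
      (∑ i ∈ Ico j k, if x i % 3 = 0 ∧ x (i + 1) % 3 ≠ 0 then 1 else 0) =
        L' + (if b = 0 then 0 else 1) ∧
      Real.log w ≤ (8 / 5) ^ L' * Real.log m0 ∧
      (D' : ℝ) * Real.log 2 ≤ (∑ i ∈ range L', ((8 : ℝ) / 5) ^ i) * Real.log m0 ∧
      (b = 0 ↔ x j % 3 ≠ 0) := by
  have hm0r : 0 ≤ Real.log m0 := Real.log_natCast_nonneg m0
  induction t with
  | zero =>
    intro j hj
    have hjk : j = k := by omega
    subst hjk
    refine ⟨0, m0, 0, 0, hm0, ?_, ?_, ?_, ?_, ?_, ?_⟩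
    · rw [hxk]; simp
    · simp
    · simp
    · simp
    · simp
    · simp [hk]
  | succ t ih =>
    intro j hj
    have hjk : j < k := by omega
    obtain ⟨b, w, L', D', hw, he, hD, hL, hlw, hlD, hb⟩ := ih (j + 1) (by omega)
    rw [Finset.sum_eq_sum_Ico_succ_bot hjk, Finset.sum_eq_sum_Ico_succ_bot hjk, hD, hL]
    by_cases hd : x j % 3 = 0
    · refine ⟨b + 1, w, L', D', hw, ?_, ?_, ?_, hlw, hlD, ?_⟩
      · calc 2 ^ (b + 1) * x j = 2 ^ b * (2 * x j) := by ring
          _ = 2 ^ b * (3 * x (j + 1)) := by rw [h3 j hd]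
          _ = 3 * (2 ^ b * x (j + 1)) := by ring
          _ = 3 * (3 ^ b * w) := by rw [he]
          _ = 3 ^ (b + 1) * w := by ring
      · rw [if_pos hd]; ring
      · rw [if_neg (Nat.succ_ne_zero b)]
        by_cases hb0 : b = 0
        · rw [if_pos hb0, if_pos ⟨hd, hb.mp hb0⟩]; ring
        · rw [if_neg hb0, if_neg (fun h => hb0 (hb.mpr h.2))]; ring
      · simp [hd]
    · have hlt := hup j hd
      have hlx : Real.log (x j) ≤ Real.log (x (j + 1)) := by
        apply Real.log_le_log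
        · have := hx2 j
          have h0 : 0 < x j := by omega
          exact_mod_cast h0
        · exact_mod_cast hlt.le
      by_cases hb0 : b = 0
      · refine ⟨0, x j, L', D', hx2 j, by simp, ?_, ?_, ?_, hlD, ?_⟩
        · rw [if_neg hd, hb0]; ring
        · rw [if_neg (fun h => hd h.1), hb0]; simp
        · subst hb0
          have hxw : x (j + 1) = w := by simpa using he
          rw [hxw] at hlx
          linarith
        · simp [hd]
      · obtain ⟨hb1, hb2⟩ := chb_log b w (x (j + 1)) hw he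
        refine ⟨0, x j, L' + 1, D' + b, hx2 j, by simp, ?_, ?_, ?_, ?_, ?_⟩
        · rw [if_neg hd]; ring
        · rw [if_neg (fun h => hd h.1), if_neg hb0]; simp
        · calc Real.log (x j) ≤ 8 / 5 * Real.log w := le_trans hlx hb2
            _ ≤ 8 / 5 * ((8 / 5) ^ L' * Real.log m0) := by linarith
            _ = (8 / 5) ^ (L' + 1) * Real.log m0 := by ring
        · rw [Finset.sum_range_succ, add_mul]
          push_cast
          rw [add_mul]
          linarith
        · simp [hd]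

theorem CHB_thm : CHBStmt := by
  intro m0 k K hm0 hk hper hmin hlm
  have hx2 : ∀ j, 2 ≤ F^[j] m0 := fun j => le_trans hm0 (hmin j)
  have hs : ∀ j, F^[j + 1] m0 = F (F^[j] m0) := fun j => Function.iterate_succ_apply' F j m0
  have hm3 : m0 % 3 ≠ 0 := by
    intro h
    have h1 := chb_dn m0 hm0 h
    have h2 : m0 ≤ F m0 := hmin 1
    omega
  obtain ⟨b, w, L', D', hw, he, hD, hL, hlw, hlD, hb⟩ := chb_main (fun j => F^[j] m0) m0 k hm0 hx2
    hper (by
      show F^[k] m0 % 3 ≠ 0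
      rw [hper]; exact hm3)
    (fun j h => by
      show 3 * F^[j + 1] m0 = 2 * F^[j] m0
      rw [hs]; exact chb_F3 _ h)
    (fun j h => by
      show F^[j] m0 < F^[j + 1] m0
      rw [hs]; exact chb_up _ (hx2 j) h) k 0 (by omega)
  have hb0 : b = 0 := hb.mpr hm3
  subst hb0
  have hdnc : dnc m0 k = D' := by
    unfold dnc
    rw [Finset.card_filter, Finset.range_eq_Ico]
    simpa using hD
  have hlm' : lm F m0 k = L' := by
    unfold lm
    rw [Finset.card_filter, Finset.range_eq_Ico]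
    have e : ∀ i, (F^[i + 1] m0 < F^[i] m0 ∧ F^[i + 1] m0 < F^[i + 2] m0) ↔
        (F^[i] m0 % 3 = 0 ∧ F^[i + 1] m0 % 3 ≠ 0) := by
      intro i
      rw [hs (i + 1), hs i]
      exact chb_iff _ (hx2 i) (by rw [← hs i]; exact hx2 (i + 1))
    simp only [e]
    simpa using hL
  rw [hdnc]
  rw [hlm'] at hlm
  refine le_trans hlD ?_
  apply mul_le_mul_of_nonneg_right _ (Real.log_natCast_nonneg m0)
  exact Finset.sum_le_sum_of_subset_of_nonneg (Finset.range_mono hlm)
    (fun i _ _ => by positivity)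

end Pool.STN
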