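import Pool.Agent.H78.STN.Stmts3

/-! # Board STO, row ESK (adapted from H91 ESC) -/

set_option autoImplicit false

open Finset

namespace Pool.STN

theorem esk62_odd (x : ℕ) (h : F x % 2 = 0) : x % 3 = 0 := by
  by_contra hx
  unfold F at h
  rw [if_neg hx] at h
  split_ifs at h with h2
  · omega
  · omega

/-- ESK -/
theorem ESK_thm (hT : TRIStmt) : ESKStmt := by
  intro m0 k h2 hk hc he h3 hesc
  obtain ⟨T, hT1, hT2⟩ := hesc
  obtain ⟨-, -, hd, hu, -, -⟩ := hT m0 k h2 hk hc
  have hTk : T < k := by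
    by_contra hcon
    exact hT1 k hk (by omega) hc
  have hk1 : k - 1 + 1 = k := by omega
  have hlast : F^[k - 1] m0 % 3 = 0 := by
    apply esk62_odd
    rw [← Function.iterate_succ_apply' F (k - 1) m0, Nat.succ_eq_add_one, hk1, hc]
    exact he
  have hmem : ∀ j, (F^[j + 1] m0 < F^[j] m0 ∧ F^[j + 1] m0 < F^[j + 2] m0) ↔
      (F^[j] m0 % 3 = 0 ∧ F^[j + 1] m0 % 3 ≠ 0) := by
    intro j
    rw [hd j, show j + 2 = (j + 1) + 1 from rfl, hu (j + 1)]
  unfold lm
  have hsub : insert (k - 1) ((range T).filter fun j => F^[j] m0 % 3 = 0 ∧ F^[j + 1] m0 % 3 ≠ 0) ⊆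
      (Finset.range k).filter fun j => F^[j + 1] m0 < F^[j] m0 ∧ F^[j + 1] m0 < F^[j + 2] m0 := by
    intro j hj
    rw [mem_insert] at hj
    rw [mem_filter, mem_range, hmem]
    rcases hj with hj | hj
    · subst hj
      refine ⟨by omega, hlast, ?_⟩
      rw [hk1, hc]
      exact h3
    · rw [mem_filter, mem_range] at hj
      exact ⟨by omega, hj.2⟩
  have hnot : k - 1 ∉ ((range T).filter fun j => F^[j] m0 % 3 = 0 ∧ F^[j + 1] m0 % 3 ≠ 0) := by
    intro hj
    rw [mem_filter, mem_range] at hj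
    omega
  have hcard := card_le_card hsub
  rw [card_insert_of_notMem hnot] at hcard
  omega

end Pool.STN
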