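import Pool.Agent.H78.STN.Stmts

set_option autoImplicit false

open Polynomial

namespace Pool.STN

theorem mlb_step (n : ℕ) :
    (6 * n + 6) * (6 * n + 5) * (6 * n + 4) * (6 * n + 3) * (6 * n + 2) * (6 * n + 1) ≤
      432 * ((3 * n + 3) * (3 * n + 2) * (3 * n + 1)) * ((2 * n + 2) * (2 * n + 1)) * (n + 1) := by
  have h1 : (6 * n + 5) * (6 * n + 1) ≤ 36 * ((n + 1) * (n + 1)) := by nlinarith
  calc (6 * n + 6) * (6 * n + 5) * (6 * n + 4) * (6 * n + 3) * (6 * n + 2) * (6 * n + 1)
      = 24 * ((3 * n + 3) * (3 * n + 2) * (3 * n + 1) * (2 * n + 1)) *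
          ((6 * n + 5) * (6 * n + 1)) := by ring
    _ ≤ 24 * ((3 * n + 3) * (3 * n + 2) * (3 * n + 1) * (2 * n + 1)) *
          (36 * ((n + 1) * (n + 1))) := Nat.mul_le_mul_left _ h1
    _ = 432 * ((3 * n + 3) * (3 * n + 2) * (3 * n + 1)) * ((2 * n + 2) * (2 * n + 1)) * (n + 1) := by
        ring

theorem MLB_thm : MLBStmt := by
  intro n
  induction n with
  | zero => simp
  | succ n ih =>
    have e6 : (6 * (n + 1)).factorial =
        (6 * n + 6) * (6 * n + 5) * (6 * n + 4) * (6 * n + 3) * (6 * n + 2) * (6 * n + 1) *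
          (6 * n).factorial := by
      rw [show 6 * (n + 1) = 6 * n + 5 + 1 by ring, Nat.factorial_succ, Nat.factorial_succ,
        Nat.factorial_succ, Nat.factorial_succ, Nat.factorial_succ, Nat.factorial_succ]
      ring
    have e3 : (3 * (n + 1)).factorial =
        ((3 * n + 3) * (3 * n + 2) * (3 * n + 1)) * (3 * n).factorial := by
      rw [show 3 * (n + 1) = 3 * n + 2 + 1 by ring, Nat.factorial_succ, Nat.factorial_succ,
        Nat.factorial_succ]
      ring
    have e2 : (2 * (n + 1)).factorial = ((2 * n + 2) * (2 * n + 1)) * (2 * n).factorial := by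
      rw [show 2 * (n + 1) = 2 * n + 1 + 1 by ring, Nat.factorial_succ, Nat.factorial_succ]
      ring
    have e1 : (n + 1).factorial = (n + 1) * n.factorial := Nat.factorial_succ n
    rw [e6, e3, e2, e1]
    calc (6 * n + 6) * (6 * n + 5) * (6 * n + 4) * (6 * n + 3) * (6 * n + 2) * (6 * n + 1) *
          (6 * n).factorial
        ≤ (432 * ((3 * n + 3) * (3 * n + 2) * (3 * n + 1)) * ((2 * n + 2) * (2 * n + 1)) *
            (n + 1)) * (432 ^ n * ((3 * n).factorial * (2 * n).factorial * n.factorial)) :=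
          Nat.mul_le_mul (mlb_step n) ih
      _ = 432 ^ (n + 1) * ((3 * n + 3) * (3 * n + 2) * (3 * n + 1) * (3 * n).factorial *
            ((2 * n + 2) * (2 * n + 1) * (2 * n).factorial) * ((n + 1) * n.factorial)) := by
          rw [pow_succ]
          ring

end Pool.STN
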