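import Pool.Agent.H78.STN.Stmts3

/-!
# Board STO: row SIK (adapted from Pool/Agent/H19/STN/SIM.lean)
-/

set_option autoImplicit false

open Finset Pool.Agent.H40.COL

namespace Pool.STN

theorem sik62_F0 {x : ℕ} (h : x % 3 = 0) : F x = 2 * (x / 3) := by
  unfold F
  split_ifs <;> omega

theorem sik62_F1 {x : ℕ} (h : x % 3 = 1) : F x = (4 * x - 1) / 3 ∧ F x % 2 = 1 := by
  unfold F
  split_ifs <;> constructor <;> omega

theorem sik62_F2 {x : ℕ} (h : x % 3 = 2) : F x = (4 * x + 1) / 3 ∧ F x % 2 = 1 := by
  unfold F
  split_ifs <;> constructor <;> omega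

/-- the number of local minima passed -/
def sik62_ct (m0 s : ℕ) : ℕ :=
  ((range s).filter fun j => F^[j] m0 % 3 = 0 ∧ F^[j + 1] m0 % 3 ≠ 0).card

theorem sik62_mono (m0 s : ℕ) : sik62_ct m0 s ≤ sik62_ct m0 (s + 1) := by
  unfold sik62_ct
  apply card_le_card
  apply filter_subset_filter
  exact range_subset_range.2 (Nat.le_succ s)

theorem sik62_add (m0 s : ℕ) (h : F^[s] m0 % 3 = 0 ∧ F^[s + 1] m0 % 3 ≠ 0) :
    sik62_ct m0 (s + 1) = sik62_ct m0 s + 1 := by
  unfold sik62_ct
  rw [range_add_one, filter_insert, if_pos h, card_insert_of_notMem]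
  intro hh
  exact notMem_range_self (mem_filter.1 hh).1

theorem sik62_succ (m0 n x c : ℕ) : simb m0 (n + 1) x c =
      bif Nat.beq (x % 3) 0 then
        (bif Nat.blt (2 * (x / 3)) m0 then true
        else bif Nat.beq (2 * (x / 3) % 3) 0 then simb m0 n (2 * (x / 3)) c
        else bif Nat.beq (2 * (x / 3)) m0 then false
        else bif Nat.beq c 0 then true
        else simb m0 n (2 * (x / 3)) (c - 1))
      else bif Nat.beq (x % 3) 1 then simb m0 n ((4 * x - 1) / 3) c
      else simb m0 n ((4 * x + 1) / 3) c := rfl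

theorem sik62_main (m0 : ℕ) (h2 : m0 % 2 = 0) (h3 : m0 % 3 ≠ 0) (hmin : ∀ j, m0 ≤ F^[j] m0) :
    ∀ n c s x : ℕ, x = F^[s] m0 →
    (∀ j, 1 ≤ j → j ≤ s → F^[j] m0 ≠ m0) → 10 ≤ sik62_ct m0 s + c → simb m0 n x c = true →
    esck m0 := by
  intro n
  induction n with
  | zero =>
    intro c s x _ _ _ h
    exact absurd h (by simp [simb])
  | succ n ih =>
    intro c s x hx hj hc h
    have hs : F^[s + 1] m0 = F x := by rw [Function.iterate_succ_apply', ← hx]
    have hj' : F x ≠ m0 → ∀ j, 1 ≤ j → j ≤ s + 1 → F^[j] m0 ≠ m0 := by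
      intro hne j h1 h4
      rcases Nat.lt_or_ge j (s + 1) with h5 | h5
      · exact hj j h1 (by omega)
      · obtain rfl : j = s + 1 := by omega
        rw [hs]
        exact hne
    have hc' : 10 ≤ sik62_ct m0 (s + 1) + c := le_trans hc (by have := sik62_mono m0 s; omega)
    have h012 : x % 3 = 0 ∨ x % 3 = 1 ∨ x % 3 = 2 := by omega
    rw [sik62_succ] at h
    rcases h012 with h0 | h1 | h1
    · have hF := sik62_F0 h0
      have hge : m0 ≤ 2 * (x / 3) := by
        rw [← hF, ← hs]
        exact hmin (s + 1)
      have hblt : Nat.blt (2 * (x / 3)) m0 = false := by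
        rw [Bool.eq_false_iff]
        intro hh
        have : 2 * (x / 3) < m0 := by simpa [Nat.blt] using hh
        omega
      rw [h0] at h
      have e0 : Nat.beq 0 0 = true := rfl
      rw [e0, cond_true, hblt, cond_false] at h
      cases hb : Nat.beq (2 * (x / 3) % 3) 0 with
      | true =>
        rw [hb, cond_true] at h
        have h6 : 2 * (x / 3) % 3 = 0 := Nat.eq_of_beq_eq_true hb
        refine ih c (s + 1) (2 * (x / 3)) (by rw [hs, hF]) (hj' ?_) hc' h
        rw [hF]
        intro h7
        exact h3 (by rw [← h7]; exact h6)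
      | false =>
        rw [hb, cond_false] at h
        have h6 : 2 * (x / 3) % 3 ≠ 0 := by
          intro h7
          rw [h7] at hb
          exact absurd hb (by decide)
        cases hb' : Nat.beq (2 * (x / 3)) m0 with
        | true =>
          rw [hb', cond_true] at h
          exact absurd h (by decide)
        | false =>
          rw [hb', cond_false] at h
          have h8 : F x ≠ m0 := by
            rw [hF]
            intro h7
            rw [h7, Nat.beq_refl] at hb'
            exact absurd hb' (by decide)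
          have h9 := sik62_add m0 s ⟨by rw [← hx]; exact h0, by rw [hs, hF]; exact h6⟩
          cases c with
          | zero =>
            refine ⟨s + 1, hj' h8, ?_⟩
            have : 11 ≤ sik62_ct m0 (s + 1) := by omega
            exact this
          | succ c =>
            have e1 : Nat.beq (c + 1) 0 = false := rfl
            rw [e1, cond_false] at h
            exact ih c (s + 1) (2 * (x / 3)) (by rw [hs, hF]) (hj' h8) (by omega) h
    · obtain ⟨hF, hF'⟩ := sik62_F1 h1
      rw [h1] at h
      have e0 : Nat.beq 1 0 = false := rfl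
      have e1 : Nat.beq 1 1 = true := rfl
      rw [e0, e1, cond_false, cond_true] at h
      refine ih c (s + 1) ((4 * x - 1) / 3) (by rw [hs, hF]) (hj' ?_) hc' h
      intro h7
      rw [h7] at hF'
      omega
    · obtain ⟨hF, hF'⟩ := sik62_F2 h1
      rw [h1] at h
      have e0 : Nat.beq 2 0 = false := rfl
      have e1 : Nat.beq 2 1 = false := rfl
      rw [e0, e1, cond_false, cond_false] at h
      refine ih c (s + 1) ((4 * x + 1) / 3) (by rw [hs, hF]) (hj' ?_) hc' h
      intro h7
      rw [h7] at hF'
      omega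

theorem SIK_thm : SIKStmt := by
  intro n m0 _ h2 h3 hmin h
  exact sik62_main m0 h2 h3 hmin n 10 0 m0 rfl (fun j h1 h4 => by omega) (by omega) h

end Pool.STN
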